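import Pool.Agent.H247.CB.Stm
import Pool.Graph.R_pool_sql_team_seeded_35f281b4.K7.H85.KH.Form
import Pool.Graph.R_seed8.Y675.CO.CI

/-!
# The increase of a form persists (helper747)
-/

set_option autoImplicit false
set_option linter.unusedSectionVars false

open scoped Manifold ContDiff Topology
open Filter Set Metric

universe u

namespace Pool.Agent.H747.CBPI

open Pool.Agent.H718R2.G Pool.Agent.TH80.OMS Pool.Agent.Y504.CO Pool.Agent.H247.CB
open Pool.Agent.K7.H85.KH (DN DE qform)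
open Pool.Agent.R774.Cl (th th_inj th_surj qf qf_th qf_smul contAt_qf chart_comp)

variable {n : ℕ} {N : Type u} [TopologicalSpace N] [T2Space N] [CompactSpace N]
  [ChartedSpace (V n) N] [IsManifold (𝓡 n) ∞ N] {r : ℕ∞}

/-- the derivative in the charts at `a` and `b` -/
noncomputable def MM (a b : N) (G : N → N) (y : N) : V n →L[ℝ] V n :=
  fderiv ℝ (fun p => extChartAt (𝓡 n) b (G ((extChartAt (𝓡 n) a).symm p)))
    (extChartAt (𝓡 n) a y)

theorem key1 {d : ℕ} {e : N → V d} (he : ContMDiff (𝓡 n) (𝓡 d) 1 e)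
    (B : N → V d →L[ℝ] V d →L[ℝ] ℝ) {a y : N} (hy : y ∈ (extChartAt (𝓡 n) a).source) (v : V n) :
    qform e B y v = qf B e a y (th a y v) :=
  (qf_th he hy v).symm

theorem key2 {d : ℕ} {e : N → V d} (he : ContMDiff (𝓡 n) (𝓡 d) 1 e)
    (B : N → V d →L[ℝ] V d →L[ℝ] ℝ) {G : N → N} (hG : ContMDiff (𝓡 n) (𝓡 n) 1 G) {a b y : N}
    (hy : y ∈ (extChartAt (𝓡 n) a).source) (hGy : G y ∈ (extChartAt (𝓡 n) b).source)
    (v : V n) :
    qform e B (G y) (DN n G y v) = qf B e b (G y) (MM a b G y (th a y v)) := by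
  have h1 : MM a b G y (th a y v) = th b (G y) (DN n G y v) := chart_comp hG hy hGy v
  rw [h1]
  exact key1 he B hGy _

theorem loc (hr : 1 ≤ r) (F : DiffM n N r) {d : ℕ} {e : N → V d}
    (he : ContMDiff (𝓡 n) (𝓡 d) ∞ e) {B : N → V d →L[ℝ] V d →L[ℝ] ℝ} (hB : Continuous B) (x : N)
    (hx : ∀ v : V n, v ≠ 0 → qform e B x v < qform e B (F x) (DN n F x v)) :
    ∃ W ∈ 𝓝 x, ∃ U : Set (DiffM n N r), IsOpen[strongTop n N r] U ∧ F ∈ U ∧
      ∀ G ∈ U, ∀ y ∈ W, ∀ v : V n, v ≠ 0 →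
        qform e B y v < qform e B (G y) (DN n G y v) := by
  have he1 : ContMDiff (𝓡 n) (𝓡 d) 1 e := he.of_le (by exact_mod_cast le_top)
  have hG1 : ∀ G : DiffM n N r, ContMDiff (𝓡 n) (𝓡 n) 1 G := fun G =>
    G.contMDiff.of_le (by exact_mod_cast hr)
  have hxs : x ∈ (extChartAt (𝓡 n) x).source := mem_extChartAt_source x
  have hFs : F x ∈ (extChartAt (𝓡 n) (F x)).source := mem_extChartAt_source (F x)
  -- the increment in the charts
  have h1 : ∀ w ∈ sphere (0 : V n) 1, ∀ᶠ z : (N × N × (V n →L[ℝ] V n)) × V n in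
      𝓝 ((x, F x, MM x (F x) F x), w),
      qf B e x z.1.1 z.2 < qf B e (F x) z.1.2.1 (z.1.2.2 z.2) := by
    intro w hw
    have c1 : ContinuousAt (fun z : (N × N × (V n →L[ℝ] V n)) × V n =>
        qf B e x z.1.1 z.2) ((x, F x, MM x (F x) F x), w) :=
      contAt_qf hB he1 continuousAt_fst.fst continuousAt_snd hxs
    have c2 : ContinuousAt (fun z : (N × N × (V n →L[ℝ] V n)) × V n =>
        qf B e (F x) z.1.2.1 (z.1.2.2 z.2)) ((x, F x, MM x (F x) F x), w) :=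
      contAt_qf hB he1 continuousAt_fst.snd.fst
        (continuousAt_fst.snd.snd.clm_apply continuousAt_snd) hFs
    refine c1.eventually_lt c2 ?_
    have hw0 : w ≠ 0 := by
      rintro rfl
      rw [mem_sphere, dist_self] at hw
      exact zero_ne_one hw
    obtain ⟨v, rfl⟩ := th_surj hxs w
    have hv0 : v ≠ 0 := by
      rintro rfl
      exact hw0 (map_zero _)
    show qf B e x x (th x x v) < qf B e (F x) (F x) (MM x (F x) F x (th x x v))
    rw [← key1 he1 B hxs v, ← key2 he1 B (hG1 F) hxs hFs v]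
    exact hx v hv0
  have h2 := (isCompact_sphere (0 : V n) 1).eventually_forall_of_forall_eventually
    (P := fun (p : N × N × (V n →L[ℝ] V n)) (w : V n) => qf B e x p.1 w < qf B e (F x) p.2.1 (p.2.2 w)) h1
  rw [nhds_prod_eq, Filter.eventually_iff, mem_prod_iff] at h2
  obtain ⟨W1, hW1, t, ht, hWt⟩ := h2
  rw [nhds_prod_eq, mem_prod_iff] at ht
  obtain ⟨B1, hB1, t2, ht2, hBt⟩ := ht
  obtain ⟨ε, hε, hball⟩ := Metric.mem_nhds_iff.1 ht2
  obtain ⟨c1, c2⟩ := Pool.Agent.Y675.CO.CI.main n N r hr F 1 x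
  obtain ⟨W2, hW2, U2, hU2, hFU2, hc1⟩ := c1 (interior B1) isOpen_interior
    (mem_interior_iff_mem_nhds.2 hB1)
  obtain ⟨W3, hW3, U3, hU3, hFU3, hc2⟩ := c2 (chartAt (V n) x)
    (IsManifold.chart_mem_maximalAtlas x) (chartAt (V n) (F x))
    (IsManifold.chart_mem_maximalAtlas (F x)) (mem_chart_source (V n) x)
    (mem_chart_source (V n) (F x)) ε hε
  refine ⟨W1 ∩ (W2 ∩ W3), inter_mem hW1 (inter_mem hW2 hW3), U2 ∩ U3,
    (strongTop n N r).isOpen_inter _ _ hU2 hU3, ⟨hFU2, hFU3⟩, ?_⟩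
  rintro G ⟨hG2, hG3⟩ y ⟨hy1, hy2, hy3⟩ v hv
  obtain ⟨hys, hGs, hM⟩ := hc2 G hG3 y hy3
  have hys' : y ∈ (extChartAt (𝓡 n) x).source := by rwa [extChartAt_source]
  have hGs' : G y ∈ (extChartAt (𝓡 n) (F x)).source := by rwa [extChartAt_source]
  have hM' : MM (n := n) x (F x) G y ∈ ball (MM (n := n) x (F x) F x) ε := by
    rw [mem_ball, dist_eq_norm]
    exact hM
  have hGB : G y ∈ B1 := interior_subset (hc1 G hG2 y hy2)
  have h3 : ((y, G y, MM x (F x) G y) : N × N × (V n →L[ℝ] V n)) ∈ W1 ×ˢ t :=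
    ⟨hy1, hBt ⟨hGB, hball hM'⟩⟩
  have h4 := hWt h3
  have hw0 : th x y v ≠ 0 := fun h => hv (th_inj hys' h)
  have hwn : 0 < ‖th x y v‖ := norm_pos_iff.2 hw0
  have h5 : ‖th x y v‖⁻¹ • th x y v ∈ sphere (0 : V n) 1 := by
    rw [mem_sphere_zero_iff_norm, norm_smul, norm_inv, norm_norm, inv_mul_cancel₀ hwn.ne']
  have h6 := h4 _ h5
  simp only [map_smul] at h6
  rw [qf_smul, qf_smul] at h6
  rw [key1 he1 B hys' v, key2 he1 B (hG1 G) hys' hGs' v]
  exact lt_of_mul_lt_mul_left h6 (by positivity)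

theorem main : S_PI.{u} := by
  intro n N _ _ _ _ _ r hr F d e he B hB K hK hinc
  refine hK.isCompact.induction_on (p := fun K => ∃ (O : Set N) (U : Set (DiffM n N r)),
    IsOpen O ∧ K ⊆ O ∧ IsOpen[strongTop n N r] U ∧ F ∈ U ∧
      ∀ G ∈ U, ∀ x ∈ O, ∀ v : V n, v ≠ 0 → qform e B x v < qform e B (G x) (DN n G x v))
    ?_ ?_ ?_ ?_
  · exact ⟨∅, univ, isOpen_empty, subset_rfl, @isOpen_univ _ (strongTop n N r), mem_univ F,
      fun _ _ x hx => absurd hx (notMem_empty x)⟩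
  · rintro S T hST ⟨O, U, h1, h2, h3⟩
    exact ⟨O, U, h1, hST.trans h2, h3⟩
  · rintro S T ⟨O, U, h1, h2, h3, h4, h5⟩ ⟨O', U', h1', h2', h3', h4', h5'⟩
    refine ⟨O ∪ O', U ∩ U', h1.union h1', union_subset_union h2 h2',
      (strongTop n N r).isOpen_inter _ _ h3 h3', ⟨h4, h4'⟩, ?_⟩
    rintro G ⟨hG, hG'⟩ x (hx | hx)
    · exact h5 G hG x hx
    · exact h5' G hG' x hx
  · intro x hx
    obtain ⟨W, hW, U, h1, h2, h3⟩ := loc hr F he hB x (hinc x hx)
    refine ⟨interior W, mem_nhdsWithin_of_mem_nhds (interior_mem_nhds.2 hW), interior W, U,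
      isOpen_interior, subset_rfl, h1, h2, fun G hG y hy => h3 G hG y (interior_subset hy)⟩

end Pool.Agent.H747.CBPI
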